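import Pool.Agent.K7.H61.FT.Fin

set_option autoImplicit false

/-!
# Clusters of primes at which a far-apart family of linear forms is composite

For every `m` there is `K` such that for every admissible tuple `t₁, …, t_K` of numbers `≤ (log X)²`, every colouring
of the tuple with `m` colours of comparable size, and every family of forms `a n + b` of weighted size up to
`c log X log log X`, with coefficients as large as a power of `X`, none of them proportional to one of the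
forms `n + t_j`: there are `X^(7/8)` numbers `n ∈ (X, 3X]` such that the primes among the `n + t_j` show at least
`η m` colours and all the forms of the family are composite at `n`, each with a prime factor `≤ X^(1/1000)`.
The classes modulo the small primes are chosen by an average over the classes allowed by the tuple; the
survivors are killed by the weights for a tuple of the starting files (`TH101.RG.weightsT`, `TH101.RG.engine`),
which there are used for one window around one linear form.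
-/

open Filter

namespace Pool.Agent.Results.MP_c853c5_nt.ClustersFarForms

open scoped Classical

/-- The weight `|n| / φ(|n|)`. -/
noncomputable def w (n : ℤ) : ℝ := (n.natAbs : ℝ) / (n.natAbs.totient : ℝ)

/-- There is `η > 0` such that for every `m ≥ 1` there is `K ≥ m` such that for all `D` and squarefree `d` there is
`c > 0` such that for all large `X`: let `t` be an admissible tuple of `K` distinct naturals `≤ (log X)²`, all `h + t_j`
prime to `d`, `1 ≤ g ≤ X^D`, `𝓛` a finite set of pairs `(a, b)` of integers `|a|, |b| ≤ X^D` with `a ≠ 0`,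
`b ≠ a t_j` for all `j` and `∑ w(g a ∏ (a t_j - b)) ≤ c log X log log X`, and `col` a colouring of the tuple with `m`
colours, each used at least `K / (2m)` times. Then there are at least `X^(7/8)` numbers `n ∈ (X, 3X]`,
`n ≡ h (mod d)`, such that at least `η m` colours have some `n + t_j` prime, and for every `(a, b) ∈ 𝓛` the number
`|a n + b|` has a proper prime factor `q ≤ X^(1/1000)` not dividing `g`. -/
theorem result : ∃ η : ℝ, 0 < η ∧ ∀ m : ℕ, 1 ≤ m → ∃ K : ℕ, m ≤ K ∧ ∀ D d : ℕ, Squarefree d →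
    ∃ c : ℝ, 0 < c ∧ ∃ X₀ : ℝ, ∀ X : ℝ, X₀ ≤ X →
    ∀ t : Fin K → ℕ, Function.Injective t → (∀ j, (t j : ℝ) ≤ (Real.log X) ^ 2) →
    (∀ p : ℕ, p.Prime → ∃ v : ℕ, ∀ j, ¬ p ∣ v + t j) → ∀ h : ℕ, (∀ j, (h + t j).Coprime d) →
    ∀ g : ℕ, 1 ≤ g → (g : ℝ) ≤ X ^ D → ∀ 𝓛 : Finset (ℤ × ℤ),
    (∀ l ∈ 𝓛, l.1 ≠ 0 ∧ (∀ j, l.2 ≠ l.1 * t j) ∧ |(l.1 : ℝ)| ≤ X ^ D ∧ |(l.2 : ℝ)| ≤ X ^ D) →
    ∑ l ∈ 𝓛, w (g * (l.1 * ∏ j, (l.1 * t j - l.2))) ≤ c * (Real.log X * Real.log (Real.log X)) →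
    ∀ col : Fin K → Fin m, (∀ e, K ≤ 2 * m * {j | col j = e}.ncard) →
    X ^ (7 / 8 : ℝ) ≤ ({n : ℕ | X < n ∧ (n : ℝ) ≤ 3 * X ∧ n ≡ h [MOD d] ∧
      η * m ≤ ({e : Fin m | ∃ j, col j = e ∧ (n + t j).Prime}.ncard : ℝ) ∧
      ∀ l ∈ 𝓛, ∃ q : ℕ, q.Prime ∧ (q : ℝ) ≤ X ^ (1 / 1000 : ℝ) ∧ ¬ q ∣ g ∧ (q : ℤ) ∣ l.1 * n + l.2 ∧
        (q : ℤ) < |l.1 * n + l.2|}.ncard : ℝ) := by
  obtain ⟨η, hη, h1⟩ := Pool.Agent.K7.H61.FT.farT_composite
  refine ⟨η, hη, fun m hm => ?_⟩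
  obtain ⟨K, hmK, h2⟩ := h1 m hm
  refine ⟨K, hmK, fun D d hd => ?_⟩
  obtain ⟨c, hc, h3⟩ := h2 D d hd
  obtain ⟨X₀, hX₀⟩ := eventually_atTop.1 h3
  refine ⟨c, hc, X₀, fun X hX t htinj htl hadm h hh g hg hgD 𝓛 h𝓛 hw col hcol => ?_⟩
  set S := {n : ℕ | X < n ∧ (n : ℝ) ≤ 3 * X ∧ n ≡ h [MOD d] ∧
      η * m ≤ ({e : Fin m | ∃ j, col j = e ∧ (n + t j).Prime}.ncard : ℝ) ∧
      ∀ l ∈ 𝓛, ∃ q : ℕ, q.Prime ∧ (q : ℝ) ≤ X ^ (1 / 1000 : ℝ) ∧ ¬ q ∣ g ∧ (q : ℤ) ∣ l.1 * n + l.2 ∧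
        (q : ℤ) < |l.1 * n + l.2|} with hS
  have hfin : S.Finite := by
    apply (Set.finite_Iic ⌊3 * X⌋₊).subset
    intro n hn
    exact Set.mem_Iic.2 (Nat.le_floor hn.2.1)
  by_contra hcon
  push Not at hcon
  rw [Set.ncard_eq_toFinset_card S hfin] at hcon
  obtain ⟨n, hXn, hn3, hnb, hnd, ⟨E, hE1, hE2⟩, hmain⟩ := hX₀ X hX t htinj htl hadm h hh g (by omega) hgD 𝓛
    (fun l hl => ⟨(h𝓛 l hl).1, fun j => ((h𝓛 l hl).2.1 j).symm⟩) (fun l hl => (h𝓛 l hl).2.2) hw col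
    (fun e => by
      refine (hcol e).trans (le_of_eq ?_)
      congr 1
      unfold Pool.Agent.H362R2.RQ.fib
      rw [← Set.ncard_coe_finset]
      congr 1
      ext j
      simp)
    hfin.toFinset hcon.le
  apply hnb
  rw [Set.Finite.mem_toFinset]
  refine ⟨hXn, hn3, hnd, ?_, hmain⟩
  refine hE1.trans ?_
  have h4 : (E : Set (Fin m)) ⊆ {e : Fin m | ∃ j, col j = e ∧ (n + t j).Prime} := fun e he => hE2 e he
  have h5 := Set.ncard_le_ncard h4 (Set.toFinite _)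
  rw [Set.ncard_coe_finset] at h5
  exact_mod_cast h5

end Pool.Agent.Results.MP_c853c5_nt.ClustersFarForms
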