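import Pool.Agent.K7.H61.FF.Fin

set_option autoImplicit false

/-!
# Arbitrary linear forms in primes which are composite at the same primes

A family of linear forms `a p + b` which is small compared with the average gap, say with at most `c log X`
members, has no prime value for some prime `p ∈ (X, 3X]` by a first moment. Here the (weighted) number of the forms
may be of the order `log X log log X`, and the coefficients are arbitrary integers up to a power of `X`: this gives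
prime-free intervals longer than the average gap around many prescribed places at once, wherever they lie. The
record prime-free intervals of the starting files lie around one number or around places with a common structure
(multiples of one number, one short window). The classes modulo the small primes are chosen by an
average over the reduced classes; the survivors are killed by the weights for arbitrary residues
(`Pool.Agent.TH101.RG.templ1` of the starting files, helper101).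
-/

open Filter

namespace Pool.Agent.Results.MP_c853c5_nt.FarApartForms

/-- The weight `|n| / φ(|n|)`. -/
noncomputable def w (n : ℤ) : ℝ := (n.natAbs : ℝ) / (n.natAbs.totient : ℝ)

/-- For all `D` and squarefree `d` there is `c > 0` such that for all large `X`, all `h` prime to `d`, all
`1 ≤ g ≤ X^D` and every finite set `𝓛` of pairs `(a, b)` of nonzero integers `|a|, |b| ≤ X^D` with
`∑ w(g a b) ≤ c log X log log X` there are at least `X^(7/8)` primes `p ∈ (X, 3X]`, `p ≡ h (mod d)`, such that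
for every `(a, b) ∈ 𝓛` the number `|a p + b|` has a proper prime factor `q ≤ X^(1/1000)` not dividing `g`. -/
theorem result (D d : ℕ) (hd : Squarefree d) : ∃ c : ℝ, 0 < c ∧ ∃ X₀ : ℝ, ∀ X : ℝ, X₀ ≤ X →
    ∀ h : ℕ, h.Coprime d → ∀ g : ℕ, 1 ≤ g → (g : ℝ) ≤ X ^ D → ∀ 𝓛 : Finset (ℤ × ℤ),
    (∀ l ∈ 𝓛, l.1 ≠ 0 ∧ l.2 ≠ 0 ∧ |(l.1 : ℝ)| ≤ X ^ D ∧ |(l.2 : ℝ)| ≤ X ^ D) →
    ∑ l ∈ 𝓛, w (g * (l.1 * l.2)) ≤ c * (Real.log X * Real.log (Real.log X)) →
    X ^ (7 / 8 : ℝ) ≤ ({p : ℕ | p.Prime ∧ X < p ∧ (p : ℝ) ≤ 3 * X ∧ p ≡ h [MOD d] ∧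
      ∀ l ∈ 𝓛, ∃ q : ℕ, q.Prime ∧ (q : ℝ) ≤ X ^ (1 / 1000 : ℝ) ∧ ¬ q ∣ g ∧ (q : ℤ) ∣ l.1 * p + l.2 ∧
        (q : ℤ) < |l.1 * p + l.2|}.ncard : ℝ) := by
  obtain ⟨c, hc, h1⟩ := Pool.Agent.K7.H61.FF.far_composite D d hd
  obtain ⟨X₀, hX₀⟩ := eventually_atTop.1 h1
  refine ⟨c, hc, X₀, fun X hX h hh g hg hgD 𝓛 h𝓛 hw => ?_⟩
  set S := {p : ℕ | p.Prime ∧ X < p ∧ (p : ℝ) ≤ 3 * X ∧ p ≡ h [MOD d] ∧
      ∀ l ∈ 𝓛, ∃ q : ℕ, q.Prime ∧ (q : ℝ) ≤ X ^ (1 / 1000 : ℝ) ∧ ¬ q ∣ g ∧ (q : ℤ) ∣ l.1 * p + l.2 ∧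
        (q : ℤ) < |l.1 * p + l.2|} with hS
  have hfin : S.Finite := by
    apply (Set.finite_Iic ⌊3 * X⌋₊).subset
    intro p hp
    exact Set.mem_Iic.2 (Nat.le_floor hp.2.2.1)
  by_contra hcon
  push Not at hcon
  rw [Set.ncard_eq_toFinset_card S hfin] at hcon
  obtain ⟨p, hp, hXp, hp3, hpb, hpd, hmain⟩ := hX₀ X hX g (by omega) hgD h hh 𝓛
    (fun l hl => ⟨(h𝓛 l hl).1, (h𝓛 l hl).2.1⟩) (fun l hl => (h𝓛 l hl).2.2) hw hfin.toFinset hcon.le
  apply hpb
  rw [Set.Finite.mem_toFinset]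
  exact ⟨hp, hXp, hp3, hpd, hmain⟩

end Pool.Agent.Results.MP_c853c5_nt.FarApartForms
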