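import Pool.Agent.K7.H61.RF.Main

set_option autoImplicit false

/-!
# Prime-free windows and patterns of record size occur in every interval with frequency `X^(-o(1))`

The starting files prove that windows of record size occur, that they occur around at least `X^(9/10)` primes, and
that the shorter windows `c log X log T` occur with frequency `exp(-T)`. Here the record size itself is reached in
every interval `(M, M + X]`, wherever it lies, at least `X^(1 - 1/(log log X)^B)` times, for every `B`, in a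
prescribed residue class, and for arbitrary patterns `Z` of record size instead of windows. The small primes are
only used up to `log X/(log log X)^(B+1)`; the survivors are covered with the weights of `Pool.Agent.Y831` in place
of single primes, which costs a factor `exp((log X)^(1/4+o(1)))` only.
-/

open Filter

namespace Pool.Agent.Results.MP_c853c5_nt.RecordWindowFrequency

/-- The record size `log X (log log X)² log log log log X / (log log log X)²`. -/
noncomputable def f (X : ℝ) : ℝ :=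
  Real.log X * (Real.log (Real.log X)) ^ 2 * Real.log (Real.log (Real.log (Real.log X))) /
    (Real.log (Real.log (Real.log X))) ^ 2

/-- For all `A`, `B` and `D ≥ 1` there is `c > 0` such that for all large `X`, all integers `M`, `r` and every finite
set `Z` of at most `c f(X)` integers `|z| ≤ log X (log log X)^A` there are at least `X^(1 - 1/(log log X)^B)`
integers `n ∈ (M, M + X]`, `n ≡ r (mod D)`, such that all `n + z`, `z ∈ Z`, have a proper prime factor
`p ≤ X^(1/100)`. -/
theorem result (A B D : ℕ) (hD : 0 < D) : ∃ c : ℝ, 0 < c ∧ ∃ X₀ : ℝ, ∀ X : ℝ, X₀ ≤ X →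
    ∀ M r : ℤ, ∀ Z : Finset ℤ,
    (∀ z ∈ Z, |(z : ℝ)| ≤ Real.log X * (Real.log (Real.log X)) ^ A) → (Z.card : ℝ) ≤ c * f X →
    X ^ (1 - 1 / (Real.log (Real.log X)) ^ B : ℝ) ≤ ({n : ℤ | M < n ∧ (n : ℝ) ≤ M + X ∧ n ≡ r [ZMOD D] ∧
      ∀ z ∈ Z, ∃ p : ℕ, p.Prime ∧ (p : ℝ) ≤ X ^ (1 / 100 : ℝ) ∧ (p : ℤ) ∣ n + z ∧
        (p : ℤ) < |n + z|}.ncard : ℝ) := by
  obtain ⟨c, hc, h1⟩ := Pool.Agent.K7.H61.RF.freq A B D hD
  obtain ⟨X₀, hX₀⟩ := eventually_atTop.1 h1
  refine ⟨c, hc, X₀, fun X hX M r Z hZ hZc => ?_⟩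
  have hD0 : (0 : ℤ) < D := by exact_mod_cast hD
  obtain ⟨𝒢, hcard, h𝒢⟩ := hX₀ X hX M (r % D).toNat Z hZ hZc
  refine hcard.trans ?_
  set S := {n : ℤ | M < n ∧ (n : ℝ) ≤ M + X ∧ n ≡ r [ZMOD D] ∧
      ∀ z ∈ Z, ∃ p : ℕ, p.Prime ∧ (p : ℝ) ≤ X ^ (1 / 100 : ℝ) ∧ (p : ℤ) ∣ n + z ∧
        (p : ℤ) < |n + z|} with hS
  have hfin : S.Finite := by
    apply (Set.finite_Icc M ⌊M + X⌋).subset
    intro n hn
    exact ⟨hn.1.le, Int.le_floor.2 hn.2.1⟩
  have hsub : (𝒢 : Set ℤ) ⊆ S := by
    intro n hn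
    obtain ⟨⟨h2, h3, h4⟩, h5⟩ := h𝒢 n hn
    refine ⟨h2, h3, ?_, h5⟩
    have h6 : (((r % D).toNat : ℕ) : ℤ) = r % D := Int.toNat_of_nonneg (Int.emod_nonneg _ hD0.ne')
    rw [h6] at h4
    exact ((Int.modEq_iff_dvd.2 h4).symm).trans (Int.mod_modEq _ _)
  have h7 := Set.ncard_le_ncard hsub hfin
  rw [Set.ncard_coe_finset] at h7
  exact_mod_cast h7

end Pool.Agent.Results.MP_c853c5_nt.RecordWindowFrequency
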