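import Pool.Agent.K7.H61.FG.Fin

set_option autoImplicit false

/-!
# Every interval of length `X` contains composite translates of every set of `c log X log log X` integers

The first moment (Brun-Titchmarsh) shows that a set `B` of at most `c log X` integers has a translate `n + B` free
of primes with `n` in any given interval of length `X`; the Erdős-Rankin method gives nothing better for a general
set, and the starting files treat sets in a window of length `log X (log log X)^A`. Here the size is
`c log X log log X` and the members of `B` may be as far apart as `exp ((log X)^D)`: all that is used is that no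
difference of two members is divisible by more than `(log X)^D` primes `p ≤ X`. The small primes are used greedily;
the survivors are covered with the square weights of the starting files (`Pool.Agent.H256R2.SC.core`), for which
the primes dividing differences of survivors, up to a power of `log X` of them, are left out.
-/

open Filter

namespace Pool.Agent.Results.MP_c853c5_nt.SparseSetTranslates

/-- For all `D` and `0 < ε ≤ 1` there is `c > 0` such that for all large `X`: let `B` be a set of at most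
`c log X log log X` integers such that no difference of two different members is divisible by more than `(log X)^D`
primes `p ≤ X`. Then every interval `(M, M + X]` contains at least `X^(1 - ε)` integers `n` such that all `n + b`,
`b ∈ B`, have a proper prime factor `p ≤ X^ε`. -/
theorem result (D : ℕ) (ε : ℝ) (hε : 0 < ε) (hε1 : ε ≤ 1) : ∃ c : ℝ, 0 < c ∧ ∃ X₀ : ℝ, ∀ X : ℝ, X₀ ≤ X →
    ∀ B : Finset ℤ, (B.card : ℝ) ≤ c * (Real.log X * Real.log (Real.log X)) →
    (∀ b ∈ B, ∀ b' ∈ B, b ≠ b' →
      ({p : ℕ | p.Prime ∧ (p : ℝ) ≤ X ∧ (p : ℤ) ∣ b - b'}.ncard : ℝ) ≤ (Real.log X) ^ D) →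
    ∀ M : ℤ, X ^ (1 - ε) ≤ ({n : ℤ | M < n ∧ (n : ℝ) ≤ M + X ∧
      ∀ b ∈ B, ∃ p : ℕ, p.Prime ∧ (p : ℝ) ≤ X ^ ε ∧ (p : ℤ) ∣ n + b ∧ (p : ℤ) < |n + b|}.ncard : ℝ) := by
  obtain ⟨c, hc, h1⟩ := Pool.Agent.K7.H61.FG.many D ε hε hε1
  obtain ⟨X₀, hX₀⟩ := eventually_atTop.1 h1
  refine ⟨c, hc, X₀, fun X hX B hB hdiff M => ?_⟩
  obtain ⟨S, hcard, hS⟩ := hX₀ X hX M B hB (fun k hk l hl hkl => by
    refine le_trans (le_of_eq ?_) (hdiff k hk l hl hkl)
    rw [← Set.ncard_coe_finset]
    congr 2
    ext p
    simp only [Finset.coe_filter, Nat.mem_primeFactors, Set.mem_setOf_eq]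
    have h0 : (k - l).natAbs ≠ 0 := Int.natAbs_ne_zero.2 (sub_ne_zero.2 hkl)
    constructor
    · rintro ⟨⟨h2, h3, -⟩, h4⟩
      exact ⟨h2, h4, Int.natCast_dvd.2 h3⟩
    · rintro ⟨h2, h3, h4⟩
      exact ⟨⟨h2, Int.natCast_dvd.1 h4, h0⟩, h3⟩)
  refine hcard.trans ?_
  set T := {n : ℤ | M < n ∧ (n : ℝ) ≤ M + X ∧
      ∀ b ∈ B, ∃ p : ℕ, p.Prime ∧ (p : ℝ) ≤ X ^ ε ∧ (p : ℤ) ∣ n + b ∧ (p : ℤ) < |n + b|} with hT
  have hfin : T.Finite := by
    apply (Set.finite_Icc M ⌊M + X⌋).subset
    intro n hn
    exact ⟨hn.1.le, Int.le_floor.2 hn.2.1⟩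
  have hsub : (S : Set ℤ) ⊆ T := fun n hn => hS n hn
  have h7 := Set.ncard_le_ncard hsub hfin
  rw [Set.ncard_coe_finset] at h7
  exact_mod_cast h7

end Pool.Agent.Results.MP_c853c5_nt.SparseSetTranslates
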